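import Mathlib

namespace Pool.Agent.MP_9e8696_an.H98

/-- Expectation of `F` under the law proportional to `ν * exp (t * Y)`. -/
noncomputable def gE {Ω : Type} [Fintype Ω] (ν Y : Ω → ℝ) (t : ℝ) (F : Ω → ℝ) : ℝ :=
  (∑ ω, ν ω * Real.exp (t * Y ω) * F ω) / (∑ ω, ν ω * Real.exp (t * Y ω))

/-- One-label inequality (paragraphs 3 and 4 of the block-multilinear step). -/
def LABEL : Prop :=
  ∀ M : ℝ, 1 ≤ M → ∃ d0 : ℝ, 0 < d0 ∧ ∃ C : ℝ, 0 < C ∧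
    ∀ del e : ℝ, 0 < del → del ≤ d0 → 0 < e → e ≤ d0 →
    ∀ (Ω : Type) [Fintype Ω] [Nonempty Ω] (ν Y y g u : Ω → ℝ) (kap tau eta xi2 bt gq : ℝ),
      (∀ ω, 0 < ν ω) → 0 ≤ kap → kap ≤ 1 → 0 ≤ tau → 0 ≤ eta → 0 ≤ xi2 → 0 ≤ bt → 0 ≤ gq →
      (∀ t : ℝ, 0 ≤ t → t ≤ 1 / (1 - e) →
        gE ν Y t (fun ω => (y ω - g ω) ^ 4) ≤ M * kap ^ 2 ∧
        gE ν Y t (fun ω => y ω ^ 8) ≤ M ∧
        gE ν Y t (fun ω => g ω ^ 8) ≤ M ∧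
        |gE ν Y t (fun ω => y ω ^ 2) - 1| ≤ M * del ∧
        xi2 ≤ M * gE ν Y t (fun ω => (Y ω - gE ν Y t Y) ^ 2) ∧
        gE ν Y t (fun ω => (Y ω - gE ν Y t Y) ^ 4) ≤ M * xi2 ^ 2) →
      tau ^ 2 ≤ 2 * gE ν Y (e / (1 - e)) (fun ω => u ω ^ 2) →
      tau ^ 2 ≤ 2 * gE ν Y (e / (1 - e)) (fun ω => y ω ^ 2 * u ω ^ 2) →
      gE ν Y (e / (1 - e)) (fun ω => u ω ^ 8) ≤ M * tau ^ 8 →
      |gE ν Y (e / (1 - e)) (fun ω => y ω * u ω)| ≤ tau * eta →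
      eta ^ 2 ≤ M * del →
      eta ^ 2 ≤ M * (del * (gq + bt) + e ^ 2 * xi2) →
      gq - M * bt ≤ gE ν Y 0 (fun ω => y ω ^ 2) - 1 →
      1 + e * (gE ν Y (1 / (1 - e)) (fun ω => g ω ^ 2 + kap) - 1) - gE ν Y (1 / (1 - e)) Y
          + gq / 4 - C * bt - C * e * kap ≤
        gE ν Y (1 / (1 - e)) (fun ω =>
          ((y ω + u ω) ^ 2) ^ (1 - e) * (g ω ^ 2 + kap) ^ e * Real.exp (-Y ω))

end Pool.Agent.MP_9e8696_an.H98
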